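import Mathlib
import Pool.Agent.Lib.MP_dca756_an.Exact

set_option autoImplicit false
open Finset

namespace Pool.Agent.Results.MP_dca756_an.QuantitativeSurjectivity

variable {m : ℕ}

/-- If two probability vectors are within total variation distance `h`, the mass of every set
grows by at most `h`. -/
lemma mass_le {v y : Fin m → ℝ} (hv : ∑ r, v r = 1) (hy : ∑ r, y r = 1) {h : ℝ}
    (hd : ∑ r, |v r - y r| ≤ 2 * h) (R : Finset (Fin m)) :
    ∑ r ∈ R, v r ≤ ∑ r ∈ R, y r + h := by
  have h1 : ∑ r ∈ R, (v r - y r) + ∑ r ∈ Rᶜ, (v r - y r) = 0 := by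
    rw [Finset.sum_add_sum_compl, Finset.sum_sub_distrib, hv, hy, sub_self]
  have h2 : ∑ r ∈ R, |v r - y r| + ∑ r ∈ Rᶜ, |v r - y r| ≤ 2 * h := by
    rw [Finset.sum_add_sum_compl]; exact hd
  have h3 : ∑ r ∈ R, (v r - y r) ≤ ∑ r ∈ R, |v r - y r| :=
    Finset.sum_le_sum fun r _ => le_abs_self _
  have h4 : -∑ r ∈ Rᶜ, (v r - y r) ≤ ∑ r ∈ Rᶜ, |v r - y r| := by
    rw [← Finset.sum_neg_distrib]
    exact Finset.sum_le_sum fun r _ => neg_le_abs _
  have h5 : ∑ r ∈ R, (v r - y r) = ∑ r ∈ R, v r - ∑ r ∈ R, y r := Finset.sum_sub_distrib _ _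
  linarith

section Op

variable {P : Fin m → Fin m → Fin m → ℝ} (hpos : ∀ i j k, 0 ≤ P i j k)
  (hsymm : ∀ i j k, P i j k = P j i k) (hsum : ∀ i j, ∑ k, P i j k = 1)

include hsum in
lemma op_sum {x : Fin m → ℝ} (hx : ∑ i, x i = 1) :
    ∑ r, ∑ i, ∑ j, P i j r * x i * x j = 1 := by
  rw [Finset.sum_comm]
  have h1 : ∀ i, ∑ r, ∑ j, P i j r * x i * x j = ∑ j, x i * x j := by
    intro i
    rw [Finset.sum_comm]
    refine Finset.sum_congr rfl fun j _ => ?_
    rw [← Finset.sum_mul, ← Finset.sum_mul, hsum, one_mul]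
  rw [Finset.sum_congr rfl fun i _ => h1 i, ← Finset.sum_mul_sum, hx, one_mul]

include hpos in
lemma diag_le {x : Fin m → ℝ} (hx : ∀ i, 0 ≤ x i) (R : Finset (Fin m)) :
    ∑ i, x i ^ 2 * ∑ r ∈ R, P i i r ≤ ∑ r ∈ R, ∑ i, ∑ j, P i j r * x i * x j := by
  rw [Finset.sum_comm]
  refine Finset.sum_le_sum fun i _ => ?_
  rw [Finset.mul_sum]
  refine Finset.sum_le_sum fun r _ => ?_
  calc x i ^ 2 * P i i r = P i i r * x i * x i := by ring
    _ ≤ ∑ j, P i j r * x i * x j :=
      Finset.single_le_sum (f := fun j => P i j r * x i * x j)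
        (fun j _ => mul_nonneg (mul_nonneg (hpos i j r) (hx i)) (hx j)) (Finset.mem_univ i)

include hpos in
lemma single_le {x : Fin m → ℝ} (hx : ∀ i, 0 ≤ x i) (a : Fin m) (r : Fin m) :
    x a ^ 2 * P a a r ≤ ∑ i, ∑ j, P i j r * x i * x j := by
  have h1 := diag_le hpos hx {r}
  simp only [Finset.sum_singleton] at h1
  exact le_trans (Finset.single_le_sum (f := fun i => x i ^ 2 * P i i r)
    (fun i _ => mul_nonneg (sq_nonneg _) (hpos i i r)) (Finset.mem_univ a)) h1

include hpos hsymm in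
lemma pair_le {x : Fin m → ℝ} (hx : ∀ i, 0 ≤ x i) {a b : Fin m} (hab : a ≠ b)
    (R : Finset (Fin m)) :
    2 * (x a * x b) * ∑ r ∈ R, P a b r ≤ ∑ r ∈ R, ∑ i, ∑ j, P i j r * x i * x j := by
  rw [Finset.mul_sum]
  refine Finset.sum_le_sum fun r _ => ?_
  have hnn : ∀ i j, 0 ≤ P i j r * x i * x j := fun i j =>
    mul_nonneg (mul_nonneg (hpos i j r) (hx i)) (hx j)
  have h1 : P a b r * x a * x b ≤ ∑ j, P a j r * x a * x j :=
    Finset.single_le_sum (f := fun j => P a j r * x a * x j) (fun j _ => hnn a j)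
      (Finset.mem_univ b)
  have h2 : P b a r * x b * x a ≤ ∑ j, P b j r * x b * x j :=
    Finset.single_le_sum (f := fun j => P b j r * x b * x j) (fun j _ => hnn b j)
      (Finset.mem_univ a)
  have h3 : ∑ j, P a j r * x a * x j + ∑ j, P b j r * x b * x j ≤
      ∑ i, ∑ j, P i j r * x i * x j := by
    rw [← Finset.sum_pair hab (f := fun i => ∑ j, P i j r * x i * x j)]
    exact Finset.sum_le_univ_sum_of_nonneg fun i => Finset.sum_nonneg fun j _ => hnn i j
  rw [hsymm b a r] at h2
  calc 2 * (x a * x b) * P a b r = P a b r * x a * x b + P a b r * x b * x a := by ring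
    _ ≤ _ := by linarith

end Op

/-- the test point `(e_k + e_l)/2` -/
lemma test_sum (k l : Fin m) :
    ∑ r, ((if r = k then (1 / 2 : ℝ) else 0) + (if r = l then 1 / 2 else 0)) = 1 := by
  rw [Finset.sum_add_distrib, Finset.sum_ite_eq', Finset.sum_ite_eq']
  simp only [Finset.mem_univ, if_true]
  norm_num

theorem part_one (P : Fin m → Fin m → Fin m → ℝ) (hpos : ∀ i j k, 0 ≤ P i j k)
    (hsymm : ∀ i j k, P i j k = P j i k) (hsum : ∀ i j, ∑ k, P i j k = 1)
    (h : ℝ) (hm : 100 * (m : ℝ) * h ≤ 1)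
    (htest : ∀ k l : Fin m, ∃ x ∈ stdSimplex ℝ (Fin m),
      ∑ r, |(∑ i, ∑ j, P i j r * x i * x j) -
        ((if r = k then 1 / 2 else 0) + (if r = l then 1 / 2 else 0))| ≤ 2 * h) :
    ∃! π : Equiv.Perm (Fin m), ∀ i j,
      ∑ r ∈ univ.filter (fun r => r ≠ π i ∧ r ≠ π j), P i j r ≤ 4 * h := by
  rcases Nat.eq_zero_or_pos m with rfl | hm0
  · exact ⟨Equiv.refl _, fun i => i.elim0, fun π _ => Subsingleton.elim _ _⟩
  have hm1 : (1 : ℝ) ≤ m := by exact_mod_cast hm0
  have i0 : Fin m := ⟨0, hm0⟩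
  have hh0 : 0 ≤ h := by
    obtain ⟨x, -, hx⟩ := htest i0 i0
    have : 0 ≤ 2 * h := le_trans (Finset.sum_nonneg fun r _ => abs_nonneg _) hx
    linarith
  have hmh : (m : ℝ) * h ≤ 1 / 100 := by linarith
  have hh1 : h ≤ 1 / 100 := by nlinarith
  -- diagonal coefficients
  have hrow : ∀ i j k, P i j k = 1 - ∑ r ∈ univ.filter (fun r => r ≠ k), P i j r := by
    intro i j k
    have := Finset.sum_filter_add_sum_filter_not univ (fun r => r ≠ k) (fun r => P i j r)
    rw [hsum] at this
    have h2 : univ.filter (fun r => ¬ r ≠ k) = ({k} : Finset (Fin m)) := by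
      ext r; simp
    rw [h2, Finset.sum_singleton] at this
    linarith
  have hvert : ∀ k, ∃ i, 99 / 100 ≤ P i i k := by
    intro k
    obtain ⟨x, hx, hxk⟩ := htest k k
    by_contra hcon
    push Not at hcon
    have h1 : ∀ i, (m : ℝ) * h < ∑ r ∈ univ.filter (fun r => r ≠ k), P i i r := by
      intro i
      have e1 := hrow i i k
      have e2 := hcon i
      linarith
    have h2 := mass_le (op_sum hsum hx.2) (test_sum k k) hxk (univ.filter (fun r => r ≠ k))
    have h3 : ∑ r ∈ univ.filter (fun r => r ≠ k),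
        ((if r = k then (1 / 2 : ℝ) else 0) + (if r = k then 1 / 2 else 0)) = 0 := by
      refine Finset.sum_eq_zero fun r hr => ?_
      rw [Finset.mem_filter] at hr
      rw [if_neg hr.2, add_zero]
    rw [h3, zero_add] at h2
    have h4 := (diag_le hpos hx.1 (univ.filter (fun r => r ≠ k))).trans h2
    have h5 : (1 : ℝ) ≤ m * ∑ i, x i ^ 2 := by
      have := sq_sum_le_card_mul_sum_sq (s := (univ : Finset (Fin m))) (f := x)
      rw [hx.2, Finset.card_univ, Fintype.card_fin] at this
      linarith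
    have h6 : ∑ i, x i ^ 2 * (m * h) < ∑ i, x i ^ 2 * ∑ r ∈ univ.filter (fun r => r ≠ k), P i i r := by
      have hex : ∃ i, 0 < x i := by
        by_contra hc
        push Not at hc
        have : ∑ i, x i ≤ 0 := Finset.sum_nonpos fun i _ => hc i
        rw [hx.2] at this
        linarith
      obtain ⟨i, hi⟩ := hex
      refine Finset.sum_lt_sum (fun j _ => mul_le_mul_of_nonneg_left (h1 j).le (sq_nonneg _)) ⟨i, Finset.mem_univ i, ?_⟩
      exact mul_lt_mul_of_pos_left (h1 i) (by positivity)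
    rw [← Finset.sum_mul] at h6
    have h7 : h ≤ (∑ i, x i ^ 2) * (m * h) := by nlinarith
    linarith
  choose σ hσ using hvert
  have hle1 : ∀ i j k l, k ≠ l → P i j k + P i j l ≤ 1 := by
    intro i j k l hkl
    rw [← hsum i j, ← Finset.sum_pair hkl (f := fun a => P i j a)]
    exact Finset.sum_le_univ_sum_of_nonneg fun a => hpos _ _ _
  have hσinj : Function.Injective σ := by
    intro k l hkl
    by_contra hne
    have h1 := hσ k
    have h2 := hσ l
    rw [← hkl] at h2
    have h3 := hle1 (σ k) (σ k) k l hne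
    linarith
  set e : Equiv.Perm (Fin m) := Equiv.ofBijective σ (Finite.injective_iff_bijective.1 hσinj)
    with he
  set π := e.symm with hπ
  have hπ1 : ∀ i, 99 / 100 ≤ P i i (π i) := by
    intro i
    have h1 : σ (π i) = i := e.apply_symm_apply i
    have h2 := hσ (π i)
    rwa [h1] at h2
  -- main estimate
  have hmain : ∀ i j, ∑ r ∈ univ.filter (fun r => r ≠ π i ∧ r ≠ π j), P i j r ≤ 4 * h := by
    intro i j
    obtain ⟨x, hx, hxk⟩ := htest (π i) (π j)
    set R := univ.filter (fun r => r ≠ π i ∧ r ≠ π j) with hR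
    set T := univ.filter (fun a => a ≠ i ∧ a ≠ j) with hT
    have h2 := mass_le (op_sum hsum hx.2) (test_sum (π i) (π j)) hxk R
    have h3 : ∑ r ∈ R, ((if r = π i then (1 / 2 : ℝ) else 0) + (if r = π j then 1 / 2 else 0)) = 0 := by
      refine Finset.sum_eq_zero fun r hr => ?_
      rw [hR, Finset.mem_filter] at hr
      rw [if_neg hr.2.1, if_neg hr.2.2, add_zero]
    rw [h3, zero_add] at h2
    -- mass of `x` outside `{i, j}`
    have h4 : ∑ a ∈ T, x a ^ 2 * (99 / 100) ≤ h := by
      refine le_trans ?_ h2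
      calc ∑ a ∈ T, x a ^ 2 * (99 / 100) ≤ ∑ a ∈ T, ∑ i, ∑ j, P i j (π a) * x i * x j := by
            refine Finset.sum_le_sum fun a _ => ?_
            exact le_trans (mul_le_mul_of_nonneg_left (hπ1 a) (sq_nonneg _))
              (single_le hpos hx.1 a (π a))
        _ = ∑ r ∈ R, ∑ i, ∑ j, P i j r * x i * x j := by
            refine Finset.sum_bij (fun a _ => π a) ?_ ?_ ?_ ?_
            · intro a ha
              rw [hT, Finset.mem_filter] at ha
              rw [hR, Finset.mem_filter]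
              exact ⟨Finset.mem_univ _, fun h => ha.2.1 (π.injective h),
                fun h => ha.2.2 (π.injective h)⟩
            · intro a _ b _ hab
              exact π.injective hab
            · intro r hr
              rw [hR, Finset.mem_filter] at hr
              refine ⟨π.symm r, ?_, π.apply_symm_apply r⟩
              rw [hT, Finset.mem_filter]
              refine ⟨Finset.mem_univ _, fun h => hr.2.1 ?_, fun h => hr.2.2 ?_⟩
              · rw [← h, π.apply_symm_apply]
              · rw [← h, π.apply_symm_apply]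
            · intro a _; rfl
    have h5 : (∑ a ∈ T, x a) ^ 2 ≤ 1 / 99 := by
      have e1 := sq_sum_le_card_mul_sum_sq (s := T) (f := x)
      have e2 : (T.card : ℝ) ≤ m := by
        have := Finset.card_le_univ T
        rw [Fintype.card_fin] at this
        exact_mod_cast this
      rw [← Finset.sum_mul] at h4
      have e3 : 0 ≤ ∑ a ∈ T, x a ^ 2 := Finset.sum_nonneg fun a _ => sq_nonneg _
      have e4 : (T.card : ℝ) * ∑ a ∈ T, x a ^ 2 ≤ m * ∑ a ∈ T, x a ^ 2 :=
        mul_le_mul_of_nonneg_right e2 e3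
      have e5 : (m : ℝ) * ((∑ a ∈ T, x a ^ 2) * (99 / 100)) ≤ m * h :=
        mul_le_mul_of_nonneg_left h4 (by linarith)
      nlinarith
    have h6 : ∑ a ∈ T, x a ≤ 101 / 1000 := by
      have e0 : 0 ≤ ∑ a ∈ T, x a := Finset.sum_nonneg fun a _ => hx.1 a
      nlinarith
    by_cases hij : i = j
    · subst hij
      have e1 : x i = 1 - ∑ a ∈ T, x a := by
        have := Finset.sum_filter_add_sum_filter_not univ (fun a => a ≠ i ∧ a ≠ i) x
        rw [hx.2] at this
        have h2 : univ.filter (fun a => ¬ (a ≠ i ∧ a ≠ i)) = ({i} : Finset (Fin m)) := by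
          ext r; simp
        rw [h2, Finset.sum_singleton] at this
        linarith
      have e2 : 899 / 1000 ≤ x i := by linarith
      have e3 : x i ^ 2 * ∑ r ∈ R, P i i r ≤ h := by
        refine le_trans ?_ ((diag_le hpos hx.1 R).trans h2)
        exact Finset.single_le_sum (f := fun i => x i ^ 2 * ∑ r ∈ R, P i i r)
          (fun i _ => mul_nonneg (sq_nonneg _) (Finset.sum_nonneg fun r _ => hpos i i r))
          (Finset.mem_univ i)
      have e4 : 0 ≤ ∑ r ∈ R, P i i r := Finset.sum_nonneg fun r _ => hpos i i r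
      have e5 : 1 / 4 ≤ x i ^ 2 := by nlinarith
      nlinarith
    · have hπij : π i ≠ π j := fun h => hij (π.injective h)
      have e1 : x i + x j = 1 - ∑ a ∈ T, x a := by
        have := Finset.sum_filter_add_sum_filter_not univ (fun a => a ≠ i ∧ a ≠ j) x
        rw [hx.2] at this
        have h2 : univ.filter (fun a => ¬ (a ≠ i ∧ a ≠ j)) = ({i, j} : Finset (Fin m)) := by
          ext r
          simp only [Finset.mem_filter, Finset.mem_univ, true_and, Finset.mem_insert,
            Finset.mem_singleton]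
          tauto
        rw [h2, Finset.sum_pair hij] at this
        linarith
      have hup : ∀ a b : Fin m, π a ≠ π b →
          ∑ r, |(∑ i, ∑ j, P i j r * x i * x j) -
            ((if r = π a then 1 / 2 else 0) + (if r = π b then 1 / 2 else 0))| ≤ 2 * h →
          x a ≤ 18 / 25 := by
        intro a b hab hxab
        have f1 := mass_le (op_sum hsum hx.2) (test_sum (π a) (π b)) hxab {π a}
        simp only [Finset.sum_singleton, if_true, if_neg hab] at f1
        have f2 := single_le hpos hx.1 a (π a)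
        have f3 := hπ1 a
        have f4 := hx.1 a
        by_contra hcon
        push Not at hcon
        have f5 : (18 / 25 : ℝ) ^ 2 ≤ x a ^ 2 := by nlinarith
        have f6 : (18 / 25 : ℝ) ^ 2 * (99 / 100) ≤ x a ^ 2 * P a a (π a) :=
          mul_le_mul f5 f3 (by norm_num) (sq_nonneg _)
        norm_num at f6 f1
        linarith
      have e2 : x i ≤ 18 / 25 := hup i j hπij hxk
      have e3 : x j ≤ 18 / 25 := by
        refine hup j i (Ne.symm hπij) ?_
        refine le_trans (le_of_eq ?_) hxk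
        refine Finset.sum_congr rfl fun r _ => ?_
        rw [add_comm (if r = π j then (1 / 2 : ℝ) else 0)]
      have e4 : 1 / 4 ≤ 2 * (x i * x j) := by
        have g1 : 899 / 1000 ≤ x i + x j := by linarith
        nlinarith [mul_nonneg (sub_nonneg.2 e2) (sub_nonneg.2 e3)]
      have e5 := (pair_le hpos hsymm hx.1 hij R).trans h2
      have e6 : 0 ≤ ∑ r ∈ R, P i j r := Finset.sum_nonneg fun r _ => hpos i j r
      nlinarith
  refine ⟨π, hmain, ?_⟩
  intro π' hπ'
  ext i
  congr 1
  by_contra hne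
  have h1 := hπ' i i
  have h2 := hrow i i (π' i)
  have h3 : univ.filter (fun r => r ≠ π' i ∧ r ≠ π' i) = univ.filter (fun r => r ≠ π' i) := by
    ext r; simp
  rw [h3] at h1
  have h4 := hle1 i i (π' i) (π i) hne
  have h5 := hπ1 i
  linarith

theorem part_two (P : Fin m → Fin m → Fin m → ℝ) (hpos : ∀ i j k, 0 ≤ P i j k)
    (hsymm : ∀ i j k, P i j k = P j i k) (hsum : ∀ i j, ∑ k, P i j k = 1)
    (d : ℝ) (π : Equiv.Perm (Fin m))
    (hd : ∀ i j, ∑ r ∈ univ.filter (fun r => r ≠ π i ∧ r ≠ π j), P i j r ≤ d)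
    (y : Fin m → ℝ) (hy : y ∈ stdSimplex ℝ (Fin m)) :
    ∃ x ∈ stdSimplex ℝ (Fin m), ∑ r, |(∑ i, ∑ j, P i j r * x i * x j) - y r| ≤ 2 * d := by
  set δ : Fin m → Fin m → ℝ := fun i j =>
    ∑ r ∈ univ.filter (fun r => r ≠ π i ∧ r ≠ π j), P i j r with hδ
  have hδ0 : ∀ i j, 0 ≤ δ i j := fun i j => Finset.sum_nonneg fun r _ => hpos i j r
  set Q : Fin m → Fin m → Fin m → ℝ := fun i j r =>
    (if r ≠ π i ∧ r ≠ π j then 0 else P i j r) +
      δ i j * ((if r = π i then 1 / 2 else 0) + (if r = π j then 1 / 2 else 0)) with hQ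
  have hin : ∀ i j r, 0 ≤ (if r = π i then (1 / 2 : ℝ) else 0) + (if r = π j then 1 / 2 else 0) := by
    intro i j r
    split_ifs <;> norm_num
  have hQpos : ∀ i j k, 0 ≤ Q i j k := by
    intro i j k
    refine add_nonneg ?_ (mul_nonneg (hδ0 i j) (hin i j k))
    split_ifs
    · exact le_rfl
    · exact hpos i j k
  have hδs : ∀ i j, δ i j = δ j i := by
    intro i j
    simp only [hδ]
    refine Finset.sum_congr ?_ fun r _ => hsymm i j r
    ext r
    simp only [Finset.mem_filter, Finset.mem_univ, true_and]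
    exact and_comm
  have hQsymm : ∀ i j k, Q i j k = Q j i k := by
    intro i j k
    simp only [hQ]
    rw [hδs i j, hsymm i j k, add_comm (if k = π i then (1 / 2 : ℝ) else 0)]
    congr 1
    exact if_congr and_comm rfl rfl
  have hQsum : ∀ i j, ∑ k, Q i j k = 1 := by
    intro i j
    simp only [hQ]
    rw [Finset.sum_add_distrib, ← Finset.mul_sum, test_sum, mul_one, ← hsum i j,
      ← Finset.sum_filter_add_sum_filter_not univ (fun r => r ≠ π i ∧ r ≠ π j) (fun r => P i j r),
      Finset.sum_ite, Finset.sum_const_zero, zero_add, add_comm]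
  have hQV : ∀ i j k, k ≠ π i → k ≠ π j → Q i j k = 0 := by
    intro i j k h1 h2
    simp only [hQ]
    rw [if_pos ⟨h1, h2⟩, if_neg h1, if_neg h2]
    ring
  have hsurj := (Pool.Agent.Lib.MP_dca756_an.Exact.exact_criterion m Q hQpos hQsymm hQsum).2
    ⟨π, hQV, by
      intro π' hπ'
      ext i
      congr 1
      by_contra hne
      have h1 : Q i i (π' i) = 1 := by
        rw [← hQsum i i]
        symm
        exact Finset.sum_eq_single (π' i) (fun k _ hk => hπ' i i k hk hk)
          (fun h => absurd (Finset.mem_univ _) h)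
      rw [hQV i i (π' i) hne hne] at h1
      exact zero_ne_one h1⟩
  rw [← hsurj] at hy
  obtain ⟨x, hx, rfl⟩ := hy
  refine ⟨x, hx, ?_⟩
  have hdiff : ∀ i j, ∑ r, |P i j r - Q i j r| ≤ 2 * d := by
    intro i j
    have h1 : ∀ r, |P i j r - Q i j r| ≤ (if r ≠ π i ∧ r ≠ π j then P i j r else 0) +
        δ i j * ((if r = π i then 1 / 2 else 0) + (if r = π j then 1 / 2 else 0)) := by
      intro r
      have h2 := mul_nonneg (hδ0 i j) (hin i j r)
      have h3 := hpos i j r
      simp only [hQ]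
      rw [abs_le]
      by_cases hc : r ≠ π i ∧ r ≠ π j
      · rw [if_pos hc, if_pos hc]
        constructor <;> linarith
      · rw [if_neg hc, if_neg hc]
        constructor <;> linarith
    refine (Finset.sum_le_sum fun r _ => h1 r).trans ?_
    rw [Finset.sum_add_distrib, ← Finset.mul_sum, test_sum, mul_one, ← Finset.sum_filter]
    have := hd i j
    simp only [hδ]
    linarith
  have hprod : ∑ i, ∑ j, x i * x j = 1 := by
    rw [← Finset.sum_mul_sum, hx.2, one_mul]
  calc ∑ r, |(∑ i, ∑ j, P i j r * x i * x j) - (∑ i, ∑ j, Q i j r * x i * x j)|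
      ≤ ∑ r, ∑ i, ∑ j, |P i j r - Q i j r| * (x i * x j) := by
        refine Finset.sum_le_sum fun r _ => ?_
        rw [← Finset.sum_sub_distrib]
        refine (Finset.abs_sum_le_sum_abs _ _).trans (Finset.sum_le_sum fun i _ => ?_)
        rw [← Finset.sum_sub_distrib]
        refine (Finset.abs_sum_le_sum_abs _ _).trans (Finset.sum_le_sum fun j _ => ?_)
        have h1 : P i j r * x i * x j - Q i j r * x i * x j = (P i j r - Q i j r) * (x i * x j) := by
          ring
        rw [h1, abs_mul, abs_of_nonneg (mul_nonneg (hx.1 i) (hx.1 j))]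
    _ = ∑ i, ∑ j, (∑ r, |P i j r - Q i j r|) * (x i * x j) := by
        rw [Finset.sum_comm]
        refine Finset.sum_congr rfl fun i _ => ?_
        rw [Finset.sum_comm]
        refine Finset.sum_congr rfl fun j _ => ?_
        rw [Finset.sum_mul]
    _ ≤ ∑ i, ∑ j, (2 * d) * (x i * x j) := by
        refine Finset.sum_le_sum fun i _ => Finset.sum_le_sum fun j _ => ?_
        exact mul_le_mul_of_nonneg_right (hdiff i j) (mul_nonneg (hx.1 i) (hx.1 j))
    _ = 2 * d := by
        have h1 : ∀ i, ∑ j, (2 * d) * (x i * x j) = (2 * d) * ∑ j, x i * x j := fun i => by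
          rw [Finset.mul_sum]
        rw [Finset.sum_congr rfl fun i _ => h1 i, ← Finset.mul_sum, hprod, mul_one]

/-- **Quantitative surjectivity of quadratic stochastic operators.**  Total variation distance is
half the sum of the absolute values. -/
theorem result (m : ℕ) (P : Fin m → Fin m → Fin m → ℝ) (hpos : ∀ i j k, 0 ≤ P i j k)
    (hsymm : ∀ i j k, P i j k = P j i k) (hsum : ∀ i j, ∑ k, P i j k = 1) :
    (∀ h : ℝ, 100 * (m : ℝ) * h ≤ 1 →
      (∀ k l : Fin m, ∃ x ∈ stdSimplex ℝ (Fin m),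
        ∑ r, |(∑ i, ∑ j, P i j r * x i * x j) -
          ((if r = k then 1 / 2 else 0) + (if r = l then 1 / 2 else 0))| ≤ 2 * h) →
      ∃! π : Equiv.Perm (Fin m), ∀ i j,
        ∑ r ∈ univ.filter (fun r => r ≠ π i ∧ r ≠ π j), P i j r ≤ 4 * h) ∧
    (∀ (d : ℝ) (π : Equiv.Perm (Fin m)),
      (∀ i j, ∑ r ∈ univ.filter (fun r => r ≠ π i ∧ r ≠ π j), P i j r ≤ d) →
      ∀ y ∈ stdSimplex ℝ (Fin m), ∃ x ∈ stdSimplex ℝ (Fin m),
        ∑ r, |(∑ i, ∑ j, P i j r * x i * x j) - y r| ≤ 2 * d) :=
  ⟨fun h hm htest => part_one P hpos hsymm hsum h hm htest,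
    fun d π hd y hy => part_two P hpos hsymm hsum d π hd y hy⟩

end Pool.Agent.Results.MP_dca756_an.QuantitativeSurjectivity
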